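import Pool.Agent.Q15.UM.U1

/-! The coordinates of the rational periodic points of `(x, y) ↦ (y, y ^ d + c - δ x)`:
denominators, congruences and absolute values. -/

set_option autoImplicit false

namespace Pool.Agent.Q15.HM

open Pool.Agent.Q15.UM

/-- the Hénon map -/
def hm (d : ℕ) (δ : ℤ) (c : ℚ) (P : ℚ × ℚ) : ℚ × ℚ := (P.2, P.2 ^ d + c - δ * P.1)

/-- its rational periodic points -/
def Per (d : ℕ) (δ : ℤ) (c : ℚ) : Set (ℚ × ℚ) := {P | ∃ n : ℕ, 0 < n ∧ (hm d δ c)^[n] P = P}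

/-- the members of the finite sets which are closed for the recursion -/
def Co (d : ℕ) (δ : ℤ) (c : ℚ) : Set ℚ := {x | ∃ S : Set ℚ, S.Finite ∧ x ∈ S ∧
  ∀ y ∈ S, ∃ w ∈ S, ∃ z ∈ S, z + δ * w = y ^ d + c}

variable {d : ℕ} {δ : ℤ} {c : ℚ}

lemma co_step {x : ℚ} (hx : x ∈ Co d δ c) :
    ∃ w ∈ Co d δ c, ∃ z ∈ Co d δ c, z + δ * w = x ^ d + c := by
  obtain ⟨S, h1, h2, h3⟩ := hx
  obtain ⟨w, hw, z, hz, h⟩ := h3 x h2
  exact ⟨w, ⟨S, h1, hw, h3⟩, z, ⟨S, h1, hz, h3⟩, h⟩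

lemma per_step {P : ℚ × ℚ} (hP : P ∈ Per d δ c) : hm d δ c P ∈ Per d δ c := by
  obtain ⟨n, hn, h⟩ := hP
  refine ⟨n, hn, ?_⟩
  rw [← Function.iterate_succ_apply, Function.iterate_succ_apply', h]

lemma per_pred {P : ℚ × ℚ} (hP : P ∈ Per d δ c) : ∃ Q ∈ Per d δ c, hm d δ c Q = P := by
  obtain ⟨n, hn, h⟩ := hP
  refine ⟨(hm d δ c)^[n - 1] P, ⟨n, hn, ?_⟩, ?_⟩
  · rw [← Function.iterate_add_apply, Nat.add_comm, Function.iterate_add_apply, h]
  · rw [← Function.iterate_succ_apply' (hm d δ c) (n - 1) P, Nat.succ_eq_add_one,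
      Nat.sub_add_cancel hn, h]

lemma per_mem {P : ℚ × ℚ} (hP : P ∈ Per d δ c) : P.1 ∈ Co d δ c ∧ P.2 ∈ Co d δ c := by
  obtain ⟨n, hn, h⟩ := hP
  set S : Set ℚ := (fun k : ℕ => ((hm d δ c)^[k] P).1) '' (Set.Iio n) with hS
  have hmod : ∀ k : ℕ, (hm d δ c)^[k] P = (hm d δ c)^[k % n] P := by
    intro k
    have h1 : ∀ m : ℕ, (hm d δ c)^[n * m] P = P := by
      intro m
      rw [Function.iterate_mul]
      exact Function.iterate_fixed h m
    conv_lhs => rw [← Nat.mod_add_div k n, Function.iterate_add_apply, h1]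
  have hall : ∀ k : ℕ, ((hm d δ c)^[k] P).1 ∈ S := by
    intro k
    rw [hmod k]
    exact ⟨k % n, Nat.mod_lt _ hn, rfl⟩
  have hfin : S.Finite := (Set.finite_Iio n).image _
  have h2 : ∀ k : ℕ, ((hm d δ c)^[k] P).2 = ((hm d δ c)^[k + 1] P).1 := by
    intro k
    rw [Function.iterate_succ_apply']
    rfl
  have hstep : ∀ y ∈ S, ∃ w ∈ S, ∃ z ∈ S, z + δ * w = y ^ d + c := by
    rintro _ ⟨k, -, rfl⟩
    refine ⟨((hm d δ c)^[k + n - 1] P).1, hall _, ((hm d δ c)^[k + n + 1] P).1, hall _, ?_⟩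
    have e1 : ((hm d δ c)^[k + n + 1] P).1 = ((hm d δ c)^[k + n] P).2 := (h2 _).symm
    have e2 : (hm d δ c)^[k + n] P = hm d δ c ((hm d δ c)^[k + n - 1] P) := by
      rw [← Function.iterate_succ_apply' (hm d δ c) (k + n - 1) P, Nat.succ_eq_add_one,
        Nat.sub_add_cancel (by omega)]
    have e3 : (hm d δ c)^[k + n] P = (hm d δ c)^[k] P := by
      rw [Function.iterate_add_apply, h]
    have e4 : ((hm d δ c)^[k + n - 1] P).2 = ((hm d δ c)^[k] P).1 := by
      rw [h2, Nat.sub_add_cancel (by omega), e3]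
    rw [e1, e2]
    unfold hm at e4 ⊢
    simp only
    rw [e4]
    ring
  have hP2 : P.2 ∈ S := by
    rw [show P.2 = ((hm d δ c)^[0] P).2 from rfl, h2]
    exact hall 1
  exact ⟨⟨S, hfin, hall 0, hstep⟩, ⟨S, hfin, hP2, hstep⟩⟩

section padic

variable {p : ℕ} [hp : Fact p.Prime]

lemma int_norm (n : ℤ) : padicNorm p (n : ℚ) ≤ 1 := padicNorm.of_int n

lemma step_norm (w z : ℚ) {M : ℚ} (hw : padicNorm p w ≤ M) (hz : padicNorm p z ≤ M) :
    padicNorm p (z + δ * w) ≤ M := by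
  refine (padicNorm.nonarchimedean).trans (max_le hz ?_)
  rw [padicNorm.mul]
  have h0 : 0 ≤ padicNorm p w := padicNorm.nonneg _
  have h1 := int_norm (p := p) δ
  calc padicNorm p δ * padicNorm p w ≤ 1 * padicNorm p w := mul_le_mul_of_nonneg_right h1 h0
    _ ≤ M := by rwa [one_mul]

lemma norm_max (hd : 2 ≤ d) {x : ℚ} (hx : x ∈ Co d δ c) :
    (max 1 (padicNorm p x)) ^ d = max 1 (padicNorm p c) := by
  obtain ⟨S, hfin, hxS, hS⟩ := hx
  obtain ⟨m, hm, hmax⟩ := Set.exists_max_image S (fun y => padicNorm p y) hfin ⟨x, hxS⟩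
  obtain ⟨w, hw, z, hz, h⟩ := hS m hm
  have h0 : 0 ≤ padicNorm p m := padicNorm.nonneg _
  have hc : c = (z + δ * w) - m ^ d := by rw [h]; ring
  have h1 := step_norm (δ := δ) w z (hmax w hw) (hmax z hz)
  have h2 : padicNorm p (m ^ d) = padicNorm p m ^ d := Pool.Agent.Q15.UM.norm_pow m d
  rcases le_or_gt (padicNorm p m) 1 with hM | hM
  · have h3 : padicNorm p c ≤ 1 := by
      rw [hc, sub_eq_add_neg]
      refine (padicNorm.nonarchimedean).trans (max_le (h1.trans hM) ?_)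
      rw [padicNorm.neg, h2]
      exact pow_le_one₀ h0 hM
    rw [max_eq_left h3, max_eq_left ((hmax x hxS).trans hM), one_pow]
  · have hlt : padicNorm p m < padicNorm p m ^ d := by
      calc padicNorm p m = padicNorm p m ^ 1 := (pow_one _).symm
        _ < padicNorm p m ^ d := pow_lt_pow_right₀ hM (by omega)
    have h3 : padicNorm p c = padicNorm p m ^ d := by
      rw [hc, sub_eq_add_neg, padicNorm.add_eq_max_of_ne, padicNorm.neg, h2]
      · exact max_eq_right (h1.trans hlt.le)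
      · rw [padicNorm.neg, h2]
        exact (h1.trans_lt hlt).ne
    obtain ⟨w', hw', z', hz', h'⟩ := hS x hxS
    have h4 := step_norm (δ := δ) w' z' (hmax w' hw') (hmax z' hz')
    have h5 : x ^ d = (z' + δ * w') + -c := by rw [h']; ring
    have h6 : padicNorm p x ^ d = padicNorm p c := by
      rw [← Pool.Agent.Q15.UM.norm_pow, h5, padicNorm.add_eq_max_of_ne, padicNorm.neg]
      · exact max_eq_right (h4.trans (by rw [h3]; exact hlt.le))
      · rw [padicNorm.neg, h3]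
        exact (h4.trans_lt hlt).ne
    have h7 : 1 < padicNorm p c := by rw [h3]; linarith
    have h8 : 1 < padicNorm p x := by
      by_contra hcon
      push Not at hcon
      have := pow_le_one₀ (n := d) (padicNorm.nonneg x) hcon
      rw [h6] at this
      linarith
    rw [max_eq_right h8.le, max_eq_right h7.le, h6]

end padic

lemma den_pow (hd : 2 ≤ d) {z : ℚ} (hz : z ∈ Co d δ c) : c.den = z.den ^ d := by
  apply Nat.eq_of_factorization_eq c.den_nz (pow_ne_zero _ z.den_nz)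
  intro p
  by_cases hp : p.Prime
  · have hf : Fact p.Prime := ⟨hp⟩
    have h1 := norm_max (p := p) hd hz
    rw [den_norm, den_norm, ← pow_mul] at h1
    have h2 : padicValNat p z.den * d = padicValNat p c.den :=
      pow_right_injective₀ (by exact_mod_cast hp.pos) (by exact_mod_cast hp.one_lt.ne') h1
    rw [Nat.factorization_pow, Finsupp.smul_apply, smul_eq_mul, Nat.factorization_def _ hp,
      Nat.factorization_def _ hp, ← h2, mul_comm]
  · rw [Nat.factorization_eq_zero_of_not_prime _ hp, Nat.factorization_eq_zero_of_not_prime _ hp]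

lemma den_eq (hd : 2 ≤ d) {x y : ℚ} (hx : x ∈ Co d δ c) (hy : y ∈ Co d δ c) : x.den = y.den := by
  have h1 := den_pow hd hx
  rw [den_pow hd hy] at h1
  exact (Nat.pow_left_injective (by omega) h1).symm

/-- the congruence -/
lemma cong (hd : 2 ≤ d) {x y : ℚ} (hx : x ∈ Co d δ c) (hy : y ∈ Co d δ c) :
    ((x.den : ℤ) ^ (d - 1)) ∣ x.num ^ d - y.num ^ d := by
  obtain ⟨w, hw, z, hz, h⟩ := co_step hx
  obtain ⟨w', hw', z', hz', h'⟩ := co_step hy
  have e1 := den_eq hd hw hx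
  have e2 := den_eq hd hz hx
  have e1' := den_eq hd hw' hx
  have e2' := den_eq hd hz' hx
  have e3 := den_eq hd hy hx
  have hb : (x.den : ℚ) ≠ 0 := by exact_mod_cast x.den_nz
  have h1 : (z + δ * w) - (z' + δ * w') = x ^ d - y ^ d := by rw [h, h']; ring
  rw [← Rat.num_div_den z, ← Rat.num_div_den w, ← Rat.num_div_den z', ← Rat.num_div_den w',
    e1, e2, e1', e2'] at h1
  have h2 : x ^ d - y ^ d = ((x.num : ℚ) ^ d - (y.num : ℚ) ^ d) / (x.den : ℚ) ^ d := by
    conv_lhs => rw [← Rat.num_div_den x, ← Rat.num_div_den y, e3]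
    rw [div_pow, div_pow]
    ring
  have h1' : (((z.num : ℚ) + δ * w.num) - (z'.num + δ * w'.num)) / x.den = x ^ d - y ^ d := by
    rw [← h1]
    ring
  rw [h2, div_eq_div_iff hb (pow_ne_zero _ hb)] at h1'
  have h3 : (x.den : ℚ) ^ d = (x.den : ℚ) ^ (d - 1) * x.den := by
    rw [← pow_succ]
    congr 1
    omega
  rw [h3, ← mul_assoc] at h1'
  have h4 := mul_right_cancel₀ hb h1'
  refine ⟨(z.num + δ * w.num) - (z'.num + δ * w'.num), ?_⟩
  have h5 : ((x.num ^ d - y.num ^ d : ℤ) : ℚ) =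
      (((x.den : ℤ) ^ (d - 1) * ((z.num + δ * w.num) - (z'.num + δ * w'.num)) : ℤ) : ℚ) := by
    push_cast
    linarith
  exact_mod_cast h5

section real

/-- the constant -/
def ee (δ : ℤ) : ℕ := 1 + δ.natAbs

lemma ee_cast (δ : ℤ) : ((ee δ : ℕ) : ℚ) = 1 + |(δ : ℚ)| := by
  unfold ee
  push_cast
  rw [← Int.cast_abs, Int.abs_eq_natAbs]
  rfl

lemma ee_pos (δ : ℤ) : 1 ≤ ee δ := by unfold ee; omega

lemma step_abs {w z t : ℚ} (hw : |w| ≤ t) (hz : |z| ≤ t) : |z + δ * w| ≤ ee δ * t := by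
  rw [ee_cast]
  calc |z + δ * w| ≤ |z| + |(δ : ℚ)| * |w| := by
        rw [← abs_mul]
        exact abs_add_le _ _
    _ ≤ t + |(δ : ℚ)| * t := add_le_add hz (mul_le_mul_of_nonneg_left hw (abs_nonneg _))
    _ = _ := by ring

lemma abs_le_or (hd : 4 ≤ d) {x : ℚ} (hx : x ∈ Co d δ c) :
    |x| ≤ 2 * ee δ ∨ |x| ^ d ≤ 2 * |c| := by
  obtain ⟨S, hfin, hxS, hS⟩ := hx
  obtain ⟨m, hm, hmax⟩ := Set.exists_max_image S (fun y => |y|) hfin ⟨x, hxS⟩
  obtain ⟨w, hw, z, hz, h⟩ := hS m hm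
  have he : (1 : ℚ) ≤ ee δ := by exact_mod_cast ee_pos δ
  have h1 := step_abs (δ := δ) (hmax w hw) (hmax z hz)
  rw [h] at h1
  have h2 : |m| ^ d - |c| ≤ |m ^ d + c| := by
    have := abs_sub_abs_le_abs_sub (m ^ d) (-c)
    rw [sub_neg_eq_add, abs_neg, abs_pow] at this
    exact this
  rcases le_or_gt |m| (2 * ee δ) with h3 | h3
  · exact Or.inl ((hmax x hxS).trans h3)
  · right
    have h5 : |m| ^ d = |m| * |m| ^ (d - 1) := by
      rw [← pow_succ']
      congr 1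
      omega
    have h6 : (2 * (ee δ : ℚ)) ≤ |m| ^ (d - 1) := by
      calc (2 * (ee δ : ℚ)) ≤ |m| := h3.le
        _ = |m| ^ 1 := (pow_one _).symm
        _ ≤ |m| ^ (d - 1) := pow_le_pow_right₀ (by linarith) (by omega)
    have h7 : |m| * (2 * ee δ) ≤ |m| ^ d := by
      rw [h5]
      exact mul_le_mul_of_nonneg_left h6 (abs_nonneg _)
    have h8 : |m| ^ d ≤ 2 * |c| := by nlinarith
    exact (pow_le_pow_left₀ (abs_nonneg _) (hmax x hxS) d).trans h8

/-- small parameters -/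
lemma small_abs (hd : 4 ≤ d) (hc : |c| < (4 * ee δ) ^ d) {z : ℚ} (hz : z ∈ Co d δ c) :
    |z| ≤ 5 * ee δ := by
  have he : (1 : ℚ) ≤ ee δ := by exact_mod_cast ee_pos δ
  rcases abs_le_or hd hz with h | h
  · linarith
  · by_contra h5
    push Not at h5
    have h1 : (5 * (ee δ : ℚ)) ^ d < |z| ^ d := by
      have : d ≠ 0 := by omega
      gcongr
    have h2 : 2 * (4 * (ee δ : ℚ)) ^ d ≤ (5 * ee δ) ^ d := by
      have h3 : (2 : ℚ) ≤ (5 / 4) ^ d := by
        calc (2 : ℚ) ≤ (5 / 4) ^ 4 := by norm_num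
          _ ≤ (5 / 4) ^ d := pow_le_pow_right₀ (by norm_num) hd
      have h4 : (5 * (ee δ : ℚ)) ^ d = (5 / 4) ^ d * (4 * ee δ) ^ d := by
        rw [← mul_pow]
        congr 1
        ring
      rw [h4]
      have : (0 : ℚ) < (4 * ee δ) ^ d := by positivity
      nlinarith
    linarith

/-- large parameters -/
lemma large_abs (hd : 4 ≤ d) (hc : (4 * (ee δ : ℚ)) ^ d ≤ |c|) {z : ℚ} (hz : z ∈ Co d δ c) :
    |z| ^ d ≤ 2 * |c| ∧ 3 * |c| ≤ 4 * |z| ^ d := by
  have he : (1 : ℚ) ≤ ee δ := by exact_mod_cast ee_pos δ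
  have h4d : (256 : ℚ) ≤ (4 * ee δ) ^ d := by
    calc (256 : ℚ) = 4 ^ 4 := by norm_num
      _ ≤ 4 ^ d := pow_le_pow_right₀ (by norm_num) hd
      _ ≤ (4 * ee δ) ^ d := by
        gcongr
        linarith
  have h1 : ∀ z, z ∈ Co d δ c → |z| ^ d ≤ 2 * |c| := by
    intro z hz
    rcases abs_le_or hd hz with h | h
    · have h2 : |z| ^ d ≤ (2 * ee δ) ^ d := by gcongr
      have h3 : (2 * (ee δ : ℚ)) ^ d ≤ (4 * ee δ) ^ d := by
        gcongr
        norm_num
      linarith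
    · exact h
  refine ⟨h1 z hz, ?_⟩
  obtain ⟨w, hw, t, ht, h⟩ := co_step hz
  set U := max |w| |t| with hU
  have h2 : U ^ d ≤ 2 * |c| := by
    rcases max_choice |w| |t| with h3 | h3
    · rw [hU, h3]; exact h1 w hw
    · rw [hU, h3]; exact h1 t ht
  have hU0 : 0 ≤ U := (abs_nonneg w).trans (le_max_left _ _)
  have h3 := step_abs (δ := δ) (le_max_left |w| |t|) (le_max_right |w| |t|)
  rw [h, ← hU] at h3
  have h4 : ee δ * U ≤ |c| / 4 := by
    by_contra hcon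
    push Not at hcon
    have hc0 : 0 < |c| := by linarith
    have h5 : (|c| / 4) ^ d ≤ (ee δ * U) ^ d := by gcongr
    have h6 : |c| ^ d ≤ (4 * (ee δ : ℚ)) ^ d * (2 * |c|) := by
      calc |c| ^ d = (|c| / 4) ^ d * 4 ^ d := by
            rw [← mul_pow]
            congr 1
            ring
        _ ≤ (ee δ * U) ^ d * 4 ^ d := by gcongr
        _ = (4 * (ee δ : ℚ)) ^ d * U ^ d := by
            rw [mul_pow, mul_pow]
            ring
        _ ≤ _ := by gcongr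
    have h7 : |c| ^ d ≤ 2 * |c| ^ 2 := by nlinarith
    have h8 : |c| ^ 4 ≤ |c| ^ d := pow_le_pow_right₀ (by linarith) hd
    have h9 : |c| ^ 4 = |c| ^ 2 * |c| ^ 2 := by ring
    have h10 : (256 : ℚ) ^ 2 ≤ |c| ^ 2 := by
      have : (256 : ℚ) ≤ |c| := by linarith
      gcongr
    have h11 : 0 < |c| ^ 2 := by positivity
    nlinarith
  have h5 : |c| - |z| ^ d ≤ |z ^ d + c| := by
    have := abs_sub_abs_le_abs_sub c (-(z ^ d))
    rw [sub_neg_eq_add, abs_neg, abs_pow, add_comm c] at this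
    exact this
  linarith

/-- two coordinates for a large parameter -/
lemma large_pair (hd : 4 ≤ d) (hev : Even d) (hc : (4 * (ee δ : ℚ)) ^ d ≤ |c|) {x y : ℚ}
    (hx : x ∈ Co d δ c) (hy : y ∈ Co d δ c) :
    3 * ee δ ≤ max |x| |y| ∧ |(|x| - |y|)| * (max |x| |y|) ^ (d - 2) ≤ 3 * ee δ := by
  have he : (1 : ℚ) ≤ ee δ := by exact_mod_cast ee_pos δ
  obtain ⟨x1, x2⟩ := large_abs hd hc hx
  set U := max |x| |y| with hU
  have hUx : |x| ≤ U := le_max_left _ _
  have hU0 : 0 ≤ U := (abs_nonneg x).trans hUx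
  have hxU : |x| ^ d ≤ U ^ d := by gcongr
  have h3 : 3 * ee δ ≤ U := by
    by_contra h
    push Not at h
    have h1 : U ^ d ≤ (3 * ee δ) ^ d := by gcongr
    have h2 : 4 * (3 * (ee δ : ℚ)) ^ d < 3 * (4 * ee δ) ^ d := by
      have h4 : (3 : ℚ) ≤ (4 / 3) ^ d := by
        calc (3 : ℚ) ≤ (4 / 3) ^ 4 := by norm_num
          _ ≤ (4 / 3) ^ d := pow_le_pow_right₀ (by norm_num) hd
      have h5 : (4 * (ee δ : ℚ)) ^ d = (4 / 3) ^ d * (3 * ee δ) ^ d := by
        rw [← mul_pow]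
        congr 1
        ring
      rw [h5]
      have : (0 : ℚ) < (3 * ee δ) ^ d := by positivity
      nlinarith
    linarith
  have hU1 : 1 ≤ U := by linarith
  have hf : ∀ t : ℚ, t ∈ Co d δ c → |t| ≤ 3 / 2 * U := by
    intro t ht
    obtain ⟨htc, -⟩ := large_abs hd hc ht
    by_contra h
    push Not at h
    have h1 : (3 / 2 * U) ^ d ≤ |t| ^ d := by gcongr
    rw [mul_pow] at h1
    have h2 : (5 : ℚ) ≤ (3 / 2) ^ d := by
      calc (5 : ℚ) ≤ (3 / 2) ^ 4 := by norm_num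
        _ ≤ (3 / 2) ^ d := pow_le_pow_right₀ (by norm_num) hd
    have h5 : 0 < U ^ d := by positivity
    nlinarith
  have h4 : |(|x| ^ d - |y| ^ d)| ≤ 3 * ee δ * U := by
    obtain ⟨w, hw, z, hz, h⟩ := co_step hx
    obtain ⟨w', hw', z', hz', h'⟩ := co_step hy
    have h5 : |x| ^ d - |y| ^ d = (z + δ * w) - (z' + δ * w') := by
      rw [h, h', hev.pow_abs, hev.pow_abs]
      ring
    rw [h5]
    have h6 := abs_sub (z + δ * w) (z' + δ * w')
    have h7 := step_abs (δ := δ) (hf w hw) (hf z hz)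
    have h8 := step_abs (δ := δ) (hf w' hw') (hf z' hz')
    linarith
  have h5 := (sub_mul_pow_le (d := d) (abs_nonneg x) (abs_nonneg y) (by omega)).trans h4
  refine ⟨h3, ?_⟩
  have h6 : U ^ (d - 1) = U ^ (d - 2) * U := by
    rw [← pow_succ]
    congr 1
    omega
  rw [← hU, h6, ← mul_assoc] at h5
  exact le_of_mul_le_mul_right h5 (by linarith)

end real

end Pool.Agent.Q15.HM
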