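import Pool.Agent.Q15.UM.U4
import Pool.Agent.Q15.HM.H1
import Pool.Agent.Q15.HM.H3

/-! The pairs of a Hénon map, the number and the structure of its periodic points. -/

set_option autoImplicit false

namespace Pool.Agent.Q15.HM

open Pool.Agent.Q15.UM (PairOK abs_eq_div eq_or_neg)

variable {d : ℕ} {δ : ℤ} {c : ℚ}

/-- two coordinates give a pair -/
theorem pair_of (hd : Even d) (hd4 : 4 ≤ d) {x y : ℚ} (hx : x ∈ Co d δ c) (hy : y ∈ Co d δ c)
    (hne : x.num.natAbs ≠ y.num.natAbs) :
    PairOK d x.den x.num.natAbs y.num.natAbs ∧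
      (Small (ee δ) x.den x.num.natAbs y.num.natAbs ∨
        Large (ee δ) d x.den x.num.natAbs y.num.natAbs) := by
  have hden := den_eq (by omega) hy hx
  have hb : (0 : ℚ) < x.den := by exact_mod_cast x.den_pos
  have hax := abs_eq_div x
  have hay := abs_eq_div y
  rw [hden] at hay
  refine ⟨⟨hne, x.reduced, ?_, ?_⟩, ?_⟩
  · rw [← hden]
    exact y.reduced
  · have h1 := cong (by omega) hx hy
    rw [Int.natCast_natAbs, Int.natCast_natAbs, hd.pow_abs, hd.pow_abs]
    exact h1
  · rcases lt_or_ge |c| ((4 * ee δ) ^ d) with hc | hc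
    · left
      have h1 := small_abs hd4 hc hx
      have h2 := small_abs hd4 hc hy
      rw [hax, div_le_iff₀ hb] at h1
      rw [hay, div_le_iff₀ hb] at h2
      exact ⟨by exact_mod_cast h1, by exact_mod_cast h2⟩
    · right
      obtain ⟨h1, h2⟩ := large_pair hd4 hd hc hx hy
      obtain ⟨u, hu⟩ : ∃ u, u = x.num.natAbs := ⟨_, rfl⟩
      obtain ⟨w, hw⟩ : ∃ w, w = y.num.natAbs := ⟨_, rfl⟩
      rw [hax, hay, ← hu, ← hw] at h1 h2
      rw [← hu, ← hw]
      have hmax : max ((u : ℚ) / x.den) ((w : ℚ) / x.den) = ((max u w : ℕ) : ℚ) / x.den := by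
        rw [max_div_div_right hb.le]
        push_cast
        rfl
      have hdiff : |((u : ℚ) / x.den - (w : ℚ) / x.den)| =
          ((max u w - min u w : ℕ) : ℚ) / x.den := by
        rw [← sub_div, abs_div, Nat.abs_cast]
        congr 1
        rcases le_total u w with h | h
        · rw [max_eq_right h, min_eq_left h, Nat.cast_sub h, abs_of_nonpos]
          · ring
          · have : (u : ℚ) ≤ w := by exact_mod_cast h
            linarith
        · rw [max_eq_left h, min_eq_right h, Nat.cast_sub h, abs_of_nonneg]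
          have : (w : ℚ) ≤ u := by exact_mod_cast h
          linarith
      rw [hmax] at h1 h2
      rw [hdiff] at h2
      constructor
      · rw [le_div_iff₀ hb] at h1
        exact_mod_cast h1
      · rw [div_pow, div_mul_div_comm, ← pow_succ', show d - 2 + 1 = d - 1 by omega,
          div_le_iff₀ (pow_pos hb _)] at h2
        exact_mod_cast h2

/-- the size of the numerators -/
lemma num_pow_le (hd4 : 4 ≤ d) {X : ℝ} {x : ℚ} (hx : x ∈ Co d δ c)
    (hn : ((|c.num| : ℤ) : ℝ) ≤ X) (hX : (c.den : ℝ) ≤ X) :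
    ((x.num.natAbs : ℝ)) ^ d ≤ (2 * ee δ) ^ d * X ∧ (x.den : ℝ) ^ d ≤ X := by
  have hden := den_pow (by omega) hx
  have hb : (0 : ℚ) < x.den := by exact_mod_cast x.den_pos
  have hax := abs_eq_div x
  have he : (1 : ℝ) ≤ ee δ := by exact_mod_cast ee_pos δ
  have h0 : (x.den : ℝ) ^ d ≤ X := by
    rw [hden] at hX
    exact_mod_cast hX
  refine ⟨?_, h0⟩
  rcases abs_le_or hd4 hx with h | h
  · rw [hax, div_le_iff₀ hb] at h
    have h1 : (x.num.natAbs : ℝ) ≤ 2 * ee δ * x.den := by exact_mod_cast h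
    calc (x.num.natAbs : ℝ) ^ d ≤ (2 * ee δ * x.den) ^ d := by gcongr
      _ = (2 * ee δ) ^ d * (x.den : ℝ) ^ d := mul_pow _ _ _
      _ ≤ (2 * ee δ) ^ d * X := by gcongr
  · rw [hax, abs_eq_div c, div_pow, hden] at h
    push_cast at h
    rw [mul_div_assoc', div_le_div_iff_of_pos_right (pow_pos hb d)] at h
    have h1 : (x.num.natAbs : ℝ) ^ d ≤ 2 * c.num.natAbs := by exact_mod_cast h
    have h2 : (c.num.natAbs : ℝ) ≤ X := by
      have : ((|c.num| : ℤ) : ℝ) = (c.num.natAbs : ℝ) := by
        rw [Int.abs_eq_natAbs]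
        rfl
      rwa [this] at hn
    have h3 : (2 : ℝ) ≤ (2 * ee δ) ^ d := by
      calc (2 : ℝ) = 2 ^ 1 := (pow_one _).symm
        _ ≤ 2 ^ d := pow_le_pow_right₀ (by norm_num) (by omega)
        _ ≤ (2 * ee δ) ^ d := by
          gcongr
          linarith
    have h4 : 0 ≤ X := le_trans (by positivity) h2
    nlinarith

/-- the constant in the bound for the number of coordinates -/
def K1 (d e : ℕ) : ℕ := 6 + 10 * (e * (25 * d * e ^ 2) ^ (d - 1))

/-- the second entries of the pairs with a given first entry -/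
theorem second_le {e b u : ℕ} (he : 1 ≤ e) (hd : Even d) (hd4 : 4 ≤ d) (hb1 : 1 ≤ b)
    (S : Finset ℕ) (hS : ∀ w ∈ S, PairOK d b u w ∧ (Small e b u w ∨ Large e d b u w)) :
    S.card ≤ (2 + 5 * (e * (25 * d * e ^ 2) ^ (d - 1))) * d ^ b.primeFactors.card := by
  obtain ⟨Q, hQ⟩ : ∃ Q, Q = e * (25 * d * e ^ 2) ^ (d - 1) := ⟨_, rfl⟩
  have hpos : 1 ≤ d ^ b.primeFactors.card := Nat.one_le_pow _ _ (by omega)
  rw [← hQ]
  rcases Nat.lt_or_ge (25 * d * e ^ 2) b with hb | hb
  · refine (card_second he hd hd4 hb _ hS).trans ?_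
    exact Nat.mul_le_mul_right _ (by omega)
  · have h3 : S ⊆ Finset.range (5 * Q + 1) := by
      intro w hw
      rw [Finset.mem_range]
      obtain ⟨h4, h5⟩ := hS w hw
      have := (entry_le he hd4 hb1 hb h4.ne h5).2
      rw [mul_assoc, ← hQ] at this
      omega
    have h4 := Finset.card_le_card h3
    rw [Finset.card_range] at h4
    calc _ ≤ 5 * Q + 1 := h4
      _ ≤ (2 + 5 * Q) * 1 := by omega
      _ ≤ _ := Nat.mul_le_mul_left _ hpos

/-- the number of the coordinates -/
theorem card_co (hd : Even d) (hd4 : 4 ≤ d) {x0 : ℚ} (hx0 : x0 ∈ Co d δ c) (S : Finset ℚ)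
    (hS : ∀ x ∈ S, x ∈ Co d δ c) : S.card ≤ K1 d (ee δ) * d ^ x0.den.primeFactors.card := by
  classical
  set I : Finset ℕ := S.image fun x => x.num.natAbs with hI
  have h1 : S.card ≤ 2 * I.card := by
    refine Finset.card_le_mul_card_image S 2 fun n hn => ?_
    obtain ⟨y, hy, rfl⟩ := Finset.mem_image.1 hn
    have h2 : S.filter (fun x => x.num.natAbs = y.num.natAbs) ⊆ {y, -y} := by
      intro x hx
      obtain ⟨hx1, hx2⟩ := Finset.mem_filter.1 hx
      rw [Finset.mem_insert, Finset.mem_singleton]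
      exact eq_or_neg (den_eq (by omega) (hS x hx1) (hS y hy)) hx2
    exact (Finset.card_le_card h2).trans Finset.card_le_two
  have hmem : ∀ w ∈ I.erase x0.num.natAbs, PairOK d x0.den x0.num.natAbs w ∧
      (Small (ee δ) x0.den x0.num.natAbs w ∨ Large (ee δ) d x0.den x0.num.natAbs w) := by
    intro w hw
    obtain ⟨hw1, hw2⟩ := Finset.mem_erase.1 hw
    obtain ⟨y, hy, rfl⟩ := Finset.mem_image.1 hw2
    exact pair_of hd hd4 hx0 (hS y hy) (Ne.symm hw1)
  have h2 := second_le (ee_pos δ) hd hd4 x0.den_pos _ hmem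
  obtain ⟨Q, hQ⟩ : ∃ Q, Q = ee δ * (25 * d * ee δ ^ 2) ^ (d - 1) := ⟨_, rfl⟩
  have h3 := Finset.pred_card_le_card_erase (s := I) (a := x0.num.natAbs)
  have hpos : 1 ≤ d ^ x0.den.primeFactors.card := Nat.one_le_pow _ _ (by omega)
  unfold K1
  rw [← hQ] at h2 ⊢
  have h4 : I.card ≤ (2 + 5 * Q) * d ^ x0.den.primeFactors.card + 1 := by omega
  calc S.card ≤ 2 * I.card := h1
    _ ≤ 2 * ((2 + 5 * Q) * d ^ x0.den.primeFactors.card + 1) := by omega
    _ ≤ 2 * ((2 + 5 * Q) * d ^ x0.den.primeFactors.card +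
        d ^ x0.den.primeFactors.card) := by omega
    _ = (6 + 10 * Q) * d ^ x0.den.primeFactors.card := by ring

/-- the number of the periodic points -/
theorem card_per (hd : Even d) (hd4 : 4 ≤ d) {x0 : ℚ} (hx0 : x0 ∈ Co d δ c) (S : Finset (ℚ × ℚ))
    (hS : ∀ P ∈ S, P ∈ Per d δ c) : S.card ≤ (K1 d (ee δ) * d ^ x0.den.primeFactors.card) ^ 2 := by
  classical
  have h1 : S ⊆ (S.image Prod.fst) ×ˢ (S.image Prod.snd) := by
    intro P hP
    rw [Finset.mem_product]
    exact ⟨Finset.mem_image_of_mem _ hP, Finset.mem_image_of_mem _ hP⟩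
  have h2 := Finset.card_le_card h1
  rw [Finset.card_product] at h2
  have h3 := card_co hd hd4 hx0 (S.image Prod.fst) (by
    intro x hx
    obtain ⟨P, hP, rfl⟩ := Finset.mem_image.1 hx
    exact (per_mem (hS P hP)).1)
  have h4 := card_co hd hd4 hx0 (S.image Prod.snd) (by
    intro x hx
    obtain ⟨P, hP, rfl⟩ := Finset.mem_image.1 hx
    exact (per_mem (hS P hP)).2)
  rw [sq]
  exact h2.trans (Nat.mul_le_mul h3 h4)

theorem per_finite (hd : Even d) (hd4 : 4 ≤ d) (δ : ℤ) (c : ℚ) : (Per d δ c).Finite := by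
  rcases (Per d δ c).eq_empty_or_nonempty with h | ⟨P, hP⟩
  · rw [h]
    exact Set.finite_empty
  · by_contra hinf
    obtain ⟨S, hS, hc⟩ := Set.Infinite.exists_subset_card_eq hinf
      ((K1 d (ee δ) * d ^ P.1.den.primeFactors.card) ^ 2 + 1)
    have := card_per hd hd4 (per_mem hP).1 S hS
    omega

theorem ncard_per (hd : Even d) (hd4 : 4 ≤ d) {x0 : ℚ} (hx0 : x0 ∈ Co d δ c) :
    (Per d δ c).ncard ≤ (K1 d (ee δ) * d ^ x0.den.primeFactors.card) ^ 2 := by
  rw [Set.ncard_eq_toFinset_card _ (per_finite hd hd4 δ c)]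
  exact card_per hd hd4 hx0 _ (by simp)

/-- the coordinates of the periodic points -/
def CP (d : ℕ) (δ : ℤ) (c : ℚ) : Set ℚ := {x | ∃ y, (x, y) ∈ Per d δ c}

lemma cp_co {x : ℚ} (hx : x ∈ CP d δ c) : x ∈ Co d δ c := by
  obtain ⟨y, hy⟩ := hx
  exact (per_mem hy).1

lemma cp_fst {P : ℚ × ℚ} (hP : P ∈ Per d δ c) : P.1 ∈ CP d δ c := ⟨P.2, hP⟩

lemma cp_snd {P : ℚ × ℚ} (hP : P ∈ Per d δ c) : P.2 ∈ CP d δ c := ⟨_, per_step hP⟩

/-- the structure if all coordinates have the same absolute value -/
theorem structure_of (hd : Even d) (hd4 : 4 ≤ d) (hδ : δ ≠ 0) (hne : (Per d δ c).Nonempty)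
    (h : ∀ x ∈ CP d δ c, ∀ y ∈ CP d δ c, |x| = |y|) :
    (∃ x : ℚ, Per d δ c = {(x, x)}) ∨ (|δ| = 1 ∧ ∃ x : ℚ, x ≠ 0 ∧ x ^ d + c = 0 ∧
      Per d δ c = {(x, x), (x, -x), (-x, x), (-x, -x)}) := by
  obtain ⟨P0, hP0⟩ := hne
  obtain ⟨r, hr⟩ : ∃ r, r = |P0.1| := ⟨_, rfl⟩
  have hr0 : 0 ≤ r := by rw [hr]; exact abs_nonneg _
  have habs : ∀ x ∈ CP d δ c, |x| = r := fun x hx => by
    rw [hr]
    exact h x hx _ (cp_fst hP0)
  have hd0 : d ≠ 0 := by omega
  rcases eq_or_lt_of_le hr0 with h0 | h0
  · left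
    refine ⟨0, ?_⟩
    have hzero : ∀ P ∈ Per d δ c, P = (0, 0) := by
      intro P hP
      have h1 := habs _ (cp_fst hP)
      have h2 := habs _ (cp_snd hP)
      rw [← h0, abs_eq_zero] at h1 h2
      exact Prod.ext h1 h2
    ext P
    constructor
    · intro hP
      exact hzero P hP
    · rintro rfl
      have := hP0
      rwa [hzero P0 hP0] at this
  · obtain ⟨t, ht⟩ : ∃ t, t = r ^ d + c := ⟨_, rfl⟩
    have hpm : ∀ x ∈ CP d δ c, x = r ∨ x = -r := fun x hx => by
      have h1 := habs x hx
      exact (abs_eq hr0).1 h1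
    have hpw : ∀ x ∈ CP d δ c, x ^ d = r ^ d := fun x hx => by
      rw [← habs x hx, hd.pow_abs]
    have hf : ∀ P ∈ Per d δ c, hm d δ c P = (P.2, t - δ * P.1) := by
      intro P hP
      unfold hm
      rw [hpw _ (cp_snd hP), ht]
    by_cases ht0 : t = 0
    · right
      have h1 := cp_snd (per_step hP0)
      rw [hf P0 hP0, ht0] at h1
      have h2 := habs _ h1
      simp only [zero_sub, abs_neg, abs_mul] at h2
      rw [← hr] at h2
      have h3 : |(δ : ℚ)| = 1 := by
        have : |(δ : ℚ)| * r = 1 * r := by rw [h2, one_mul]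
        exact mul_right_cancel₀ h0.ne' this
      have h4 : |δ| = 1 := by exact_mod_cast h3
      have hδ2 : (δ : ℚ) * δ = 1 := by
        have : δ * δ = 1 := by
          rcases (abs_eq (by norm_num : (0 : ℤ) ≤ 1)).1 h4 with h5 | h5 <;> rw [h5] <;> norm_num
        exact_mod_cast this
      refine ⟨h4, r, h0.ne', by rw [← ht, ht0], ?_⟩
      -- all four points are periodic
      have hin : ∀ x y : ℚ, |x| = r → |y| = r → (x, y) ∈ Per d δ c := by
        intro x y hx hy
        have hst : ∀ x y : ℚ, |y| = r → hm d δ c (x, y) = (y, -(δ * x)) := by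
          intro x y hy
          unfold hm
          simp only
          have : y ^ d = r ^ d := by rw [← hy, hd.pow_abs]
          rw [this, ← ht, ht0, zero_sub]
        have hab : ∀ x : ℚ, |x| = r → |(-(δ * x))| = r := by
          intro x hx
          rw [abs_neg, abs_mul, h3, one_mul, hx]
        refine ⟨4, by norm_num, ?_⟩
        have e : (hm d δ c)^[4] (x, y) = hm d δ c (hm d δ c (hm d δ c (hm d δ c (x, y)))) := rfl
        rw [e, hst x y hy, hst _ _ (hab x hx), hst _ _ (hab y hy), hst _ _ (hab _ (hab x hx))]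
        apply Prod.ext
        · simp only
          linear_combination x * hδ2
        · simp only
          linear_combination y * hδ2
      ext P
      simp only [Set.mem_insert_iff, Set.mem_singleton_iff]
      constructor
      · intro hP
        rcases hpm _ (cp_fst hP) with h5 | h5 <;> rcases hpm _ (cp_snd hP) with h6 | h6
        · exact Or.inl (Prod.ext h5 h6)
        · exact Or.inr (Or.inl (Prod.ext h5 h6))
        · exact Or.inr (Or.inr (Or.inl (Prod.ext h5 h6)))
        · exact Or.inr (Or.inr (Or.inr (Prod.ext h5 h6)))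
      · have hrr : |r| = r := abs_of_nonneg hr0
        have hrn : |(-r)| = r := by rw [abs_neg, hrr]
        rintro (rfl | rfl | rfl | rfl)
        · exact hin _ _ hrr hrr
        · exact hin _ _ hrr hrn
        · exact hin _ _ hrn hrr
        · exact hin _ _ hrn hrn
    · left
      have key : ∀ P ∈ Per d δ c, t = (1 + δ) * P.1 := by
        intro P hP
        have h1 := per_step hP
        rw [hf P hP] at h1
        have h2 := per_step h1
        rw [hf _ h1] at h2
        simp only at h2
        have h3 := per_step h2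
        rw [hf _ h2] at h3
        simp only at h3
        have hz := habs _ (cp_snd h1)
        have hz3 := habs _ (cp_snd h3)
        simp only at hz hz3
        have hx := habs _ (cp_fst hP)
        have hcase : t - δ * P.1 = P.1 ∨ t - δ * P.1 = -P.1 := by
          rw [← hx] at hz
          exact abs_eq_abs.1 hz
        rcases hcase with h5 | h5
        · linear_combination h5
        · exfalso
          rw [h5] at hz3
          have h6 : t = (δ - 1) * P.1 := by linear_combination h5
          have h7 : t - δ * -P.1 = (2 * δ - 1) * P.1 := by rw [h6]; ring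
          rw [h7, abs_mul, hx] at hz3
          have h8 : |(2 * (δ : ℚ) - 1)| = 1 := by
            have : |(2 * (δ : ℚ) - 1)| * r = 1 * r := by rw [hz3, one_mul]
            exact mul_right_cancel₀ h0.ne' this
          have h9 : |2 * δ - 1| = 1 := by exact_mod_cast h8
          rcases (abs_eq (by norm_num : (0 : ℤ) ≤ 1)).1 h9 with h10 | h10
          · have h11 : δ = 1 := by omega
            apply ht0
            rw [h6, h11]
            norm_num
          · have h11 : δ = 0 := by omega
            exact hδ h11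
      have hδ1 : (1 + (δ : ℚ)) ≠ 0 := by
        intro h1
        apply ht0
        rw [key P0 hP0, h1, zero_mul]
      have hall : ∀ P ∈ Per d δ c, P = (t / (1 + δ), t / (1 + δ)) := by
        intro P hP
        have h1 := key P hP
        have h2 := key _ (per_step hP)
        rw [hf P hP] at h2
        simp only at h2
        apply Prod.ext
        · simp only
          rw [eq_div_iff hδ1]
          linear_combination -h1
        · simp only
          rw [eq_div_iff hδ1]
          linear_combination -h2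
      refine ⟨t / (1 + δ), ?_⟩
      ext P
      constructor
      · intro hP
        exact hall P hP
      · rintro rfl
        have := hP0
        rwa [hall P0 hP0] at this

end Pool.Agent.Q15.HM
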