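import Pool.Agent.Q15.UM.U6
import Pool.Agent.Q15.HM.H4

/-! The number of the parameters of height at most `X` with rational periodic points. -/

set_option autoImplicit false
set_option linter.unusedSectionVars false

namespace Pool.Agent.Q15.HM

open Real
open Pool.Agent.Q15.UM (PairOK abs_eq_div eq_or_neg eq_sign_div omega_bound sum_inv)

/-- parameters of height at most `X` with a rational periodic point -/
def Par (d : ℕ) (δ : ℤ) (X : ℝ) : Set ℚ :=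
  {c | ((|c.num| : ℤ) : ℝ) ≤ X ∧ (c.den : ℝ) ≤ X ∧ (Per d δ c).Nonempty}

/-- ... with coordinates of different absolute values -/
def Bad (d : ℕ) (δ : ℤ) (X : ℝ) : Set ℚ :=
  {c | c ∈ Par d δ X ∧ ∃ x ∈ CP d δ c, ∃ y ∈ CP d δ c, |x| ≠ |y|}

open Classical in
/-- the pairs for the denominator `b`, with entries at most `M` -/
noncomputable def pairs (d e M b : ℕ) : Finset (ℕ × ℕ) :=
  (Finset.range (M + 1) ×ˢ Finset.range (M + 1)).filter fun x =>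
    PairOK d b x.1 x.2 ∧ (Small e b x.1 x.2 ∨ Large e d b x.1 x.2)

open Classical in
/-- the second entries -/
noncomputable def sec (d e M b u : ℕ) : Finset ℕ :=
  (Finset.range (M + 1)).filter fun w => PairOK d b u w ∧ (Small e b u w ∨ Large e d b u w)

/-- the parameter of a datum -/
def par (d : ℕ) (δ : ℤ) (b u : ℕ) (t : (ℕ × ℕ) × Bool × Bool) : ℚ :=
  (if t.2.1 then (1 : ℚ) else -1) * ((t.1.1 : ℚ) / b) +
    δ * ((if t.2.2 then (1 : ℚ) else -1) * ((t.1.2 : ℚ) / b)) - ((u : ℚ) / b) ^ d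

open Classical in
/-- the parameters for one denominator -/
noncomputable def badc (d : ℕ) (δ : ℤ) (e M b : ℕ) : Finset ℚ :=
  (pairs d e M b).biUnion fun x =>
    (((insert x.1 (sec d e M b x.1)) ×ˢ (insert x.1 (sec d e M b x.1))) ×ˢ
      (Finset.univ : Finset (Bool × Bool))).image (par d δ b x.1)

section

variable {d : ℕ} {δ : ℤ} (hd : Even d) (hd4 : 4 ≤ d)
include hd hd4

lemma pow_eq_div (x : ℚ) : x ^ d = ((x.num.natAbs : ℚ) / x.den) ^ d := by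
  rw [← abs_eq_div, hd.pow_abs]

/-- the size of numerator and denominator of a coordinate -/
lemma num_le {X : ℝ} (hX : 1 ≤ X) {c x : ℚ} (hx : x ∈ Co d δ c)
    (hn : ((|c.num| : ℤ) : ℝ) ≤ X) (hc : (c.den : ℝ) ≤ X) :
    (x.num.natAbs : ℝ) ≤ 2 * ee δ * X ^ (1 / (d : ℝ)) ∧ (x.den : ℝ) ≤ X ^ (1 / (d : ℝ)) := by
  obtain ⟨h1, h2⟩ := num_pow_le hd4 hx hn hc
  have hd0 : (d : ℝ) ≠ 0 := by
    have : d ≠ 0 := by omega
    exact_mod_cast this
  have e : (X ^ (1 / (d : ℝ))) ^ d = X := by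
    rw [← rpow_natCast, ← rpow_mul (by linarith), one_div_mul_cancel hd0, rpow_one]
  have hY : 0 ≤ X ^ (1 / (d : ℝ)) := by positivity
  constructor
  · apply le_of_pow_le_pow_left₀ (n := d) (by omega) (by positivity)
    rw [mul_pow, e]
    exact h1
  · apply le_of_pow_le_pow_left₀ (n := d) (by omega) (by positivity)
    rw [e]
    exact h2

omit hd hd4 in
lemma natAbs_ne {x y : ℚ} (hden : x.den = y.den) (h : |x| ≠ |y|) :
    x.num.natAbs ≠ y.num.natAbs := by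
  intro h1
  apply h
  rw [abs_eq_div, abs_eq_div, h1, hden]

/-- the bad parameters come from pairs -/
lemma bad_subset {X : ℝ} (hX : 1 ≤ X) : Bad d δ X ⊆
    (((Finset.Icc 1 ⌊X ^ (1 / (d : ℝ))⌋₊).biUnion fun b =>
      badc d δ (ee δ) ⌊2 * ee δ * X ^ (1 / (d : ℝ))⌋₊ b : Finset ℚ) : Set ℚ) := by
  classical
  rintro c ⟨⟨h1, h2, h3⟩, x, hx, y, hy, hxy⟩
  have hx' := cp_co hx
  have hy' := cp_co hy
  obtain ⟨w, hw, z, hz, h⟩ := co_step hx'
  have hdxy := den_eq (by omega) hx' hy'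
  have hne := natAbs_ne hdxy hxy
  have hlt : ∀ t ∈ Co d δ c, t.num.natAbs ∈
      Finset.range (⌊2 * ee δ * X ^ (1 / (d : ℝ))⌋₊ + 1) := by
    intro t ht
    rw [Finset.mem_range, Nat.lt_succ_iff]
    exact Nat.le_floor (num_le hd hd4 hX ht h1 h2).1
  rw [Finset.mem_coe, Finset.mem_biUnion]
  refine ⟨x.den, Finset.mem_Icc.2 ⟨x.den_pos, Nat.le_floor (num_le hd hd4 hX hx' h1 h2).2⟩, ?_⟩
  unfold badc
  rw [Finset.mem_biUnion]
  refine ⟨(x.num.natAbs, y.num.natAbs), ?_, ?_⟩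
  · unfold pairs
    rw [Finset.mem_filter, Finset.mem_product]
    exact ⟨⟨hlt _ hx', hlt _ hy'⟩, pair_of hd hd4 hx' hy' hne⟩
  · have hsec : ∀ t ∈ Co d δ c, t.num.natAbs ∈ insert x.num.natAbs
        (sec d (ee δ) ⌊2 * ee δ * X ^ (1 / (d : ℝ))⌋₊ x.den x.num.natAbs) := by
      intro t ht
      rw [Finset.mem_insert]
      by_cases he : t.num.natAbs = x.num.natAbs
      · exact Or.inl he
      · right
        unfold sec
        rw [Finset.mem_filter]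
        exact ⟨hlt _ ht, pair_of hd hd4 hx' ht (Ne.symm he)⟩
    obtain ⟨s, hs⟩ := eq_sign_div w
    obtain ⟨s', hs'⟩ := eq_sign_div z
    rw [Finset.mem_image]
    refine ⟨((z.num.natAbs, w.num.natAbs), (s', s)), ?_, ?_⟩
    · rw [Finset.mem_product, Finset.mem_product]
      exact ⟨⟨hsec _ hz, hsec _ hw⟩, Finset.mem_univ _⟩
    · unfold par
      simp only
      have e1 := pow_eq_div hd hd4 x
      rw [← e1, ← den_eq (by omega) hw hx', ← hs, den_eq (by omega) hw hx',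
        ← den_eq (by omega) hz hx', ← hs']
      linarith

/-- the number of parameters for one denominator from the number of pairs -/
lemma badc_le {M b : ℕ} (hb : 1 ≤ b) : (badc d δ (ee δ) M b).card ≤ (pairs d (ee δ) M b).card *
    (((3 + 5 * (ee δ * (25 * d * ee δ ^ 2) ^ (d - 1))) * d ^ b.primeFactors.card) ^ 2 * 4) := by
  classical
  unfold badc
  apply Finset.card_biUnion_le_card_mul
  intro x hx
  refine Finset.card_image_le.trans ?_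
  rw [Finset.card_product, Finset.card_product]
  have h1 : (sec d (ee δ) M b x.1).card ≤
      (2 + 5 * (ee δ * (25 * d * ee δ ^ 2) ^ (d - 1))) * d ^ b.primeFactors.card :=
    second_le (ee_pos δ) hd hd4 hb _ (fun w hw => (Finset.mem_filter.1 hw).2)
  have h2 := Finset.card_insert_le x.1 (sec d (ee δ) M b x.1)
  have hpos : 1 ≤ d ^ b.primeFactors.card := Nat.one_le_pow _ _ (by omega)
  obtain ⟨Q, hQ⟩ : ∃ Q, Q = ee δ * (25 * d * ee δ ^ 2) ^ (d - 1) := ⟨_, rfl⟩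
  rw [← hQ] at h1 ⊢
  have h3 : (insert x.1 (sec d (ee δ) M b x.1)).card ≤
      (3 + 5 * Q) * d ^ b.primeFactors.card := by
    calc _ ≤ (2 + 5 * Q) * d ^ b.primeFactors.card + 1 := by omega
      _ ≤ (2 + 5 * Q) * d ^ b.primeFactors.card + d ^ b.primeFactors.card := by omega
      _ = _ := by ring
  have h4 : (Finset.univ : Finset (Bool × Bool)).card = 4 := by rfl
  rw [h4, sq]
  exact Nat.mul_le_mul_right _ (Nat.mul_le_mul h3 h3)

/-- the number of pairs for one denominator -/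
lemma card_pairs_le {e : ℕ} (he : 1 ≤ e) {X : ℝ} (hX : 1 ≤ X) {ε C : ℝ} (hε : 0 < ε) (hC : 1 ≤ C)
    (hω : ∀ b : ℕ, 1 ≤ b → ((d ^ b.primeFactors.card : ℕ) : ℝ) ≤ C * (b : ℝ) ^ ε) {b : ℕ}
    (hb1 : 1 ≤ b) (hb : (b : ℝ) ≤ X ^ (1 / (d : ℝ))) :
    ((pairs d e ⌊2 * e * X ^ (1 / (d : ℝ))⌋₊ b).card : ℝ) ≤
      (((5 * e * (25 * d * e ^ 2) ^ (d - 1) + 1 : ℕ) : ℝ) ^ 2 * ((25 * d * e ^ 2 : ℕ) : ℝ) +
        4 * e * C) * (X ^ (1 / (d : ℝ))) ^ (1 + 1 / (d : ℝ) + ε) * (1 / b) := by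
  classical
  set Y := X ^ (1 / (d : ℝ)) with hY
  have hY1 : 1 ≤ Y := one_le_rpow hX (by positivity)
  have hb0 : (0 : ℝ) < b := by exact_mod_cast hb1
  have he1 : (1 : ℝ) ≤ e := by exact_mod_cast he
  have hd0 : (0 : ℝ) < d := by
    have : 0 < d := by omega
    exact_mod_cast this
  have hYp : 1 ≤ Y ^ (1 + 1 / (d : ℝ) + ε) := one_le_rpow hY1 (by positivity)
  rcases Nat.lt_or_ge (25 * d * e ^ 2) b with h | h
  · have h1 := card_pairs he hd hd4 h (pairs d e ⌊2 * e * Y⌋₊ b) (fun x hx =>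
      (Finset.mem_filter.1 hx).2) ⌊2 * e * Y ^ (1 + 1 / (d : ℝ)) / b⌋₊ (by
      intro g x hx hg
      apply Nat.le_floor
      rw [le_div_iff₀ hb0]
      have h2 : (max x.1 x.2 : ℕ) ≤ ⌊2 * e * Y⌋₊ := by
        have := (Finset.mem_filter.1 hx).1
        rw [Finset.mem_product, Finset.mem_range, Finset.mem_range] at this
        omega
      have h3 : ((max x.1 x.2 : ℕ) : ℝ) ≤ 2 * e * Y :=
        (Nat.cast_le.2 h2).trans (Nat.floor_le (by positivity))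
      have h4 : ((g : ℝ) * b) ^ d ≤ (2 * e * Y ^ (1 + 1 / (d : ℝ))) ^ d := by
        have h5 : ((g ^ d * b ^ (d - 1) : ℕ) : ℝ) ≤ (((max x.1 x.2) ^ d : ℕ) : ℝ) :=
          Nat.cast_le.2 hg
        rw [Nat.cast_mul, Nat.cast_pow, Nat.cast_pow, Nat.cast_pow] at h5
        have h6 : (b : ℝ) ^ d = (b : ℝ) ^ (d - 1) * b := by
          rw [← pow_succ]
          congr 1
          omega
        have h7 : (Y ^ (1 + 1 / (d : ℝ))) ^ d = Y ^ d * Y := by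
          rw [← rpow_natCast (Y ^ (1 + 1 / (d : ℝ))) d, ← rpow_mul (by linarith), add_mul, one_mul,
            one_div_mul_cancel hd0.ne', rpow_add (by linarith), rpow_one, rpow_natCast]
        calc ((g : ℝ) * b) ^ d = ((g : ℝ) ^ d * (b : ℝ) ^ (d - 1)) * b := by
              rw [mul_pow, h6]
              ring
          _ ≤ ((max x.1 x.2 : ℕ) : ℝ) ^ d * b := by gcongr
          _ ≤ (2 * e * Y) ^ d * Y := by gcongr
          _ = (2 * e * Y ^ (1 + 1 / (d : ℝ))) ^ d := by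
              rw [mul_pow, mul_pow _ (Y ^ _), h7]
              ring
      exact le_of_pow_le_pow_left₀ (by omega) (by positivity) h4)
    have h2 : ((pairs d e ⌊2 * e * Y⌋₊ b).card : ℝ) ≤
        2 * ((2 * e * Y ^ (1 + 1 / (d : ℝ)) / b) * (C * (b : ℝ) ^ ε)) := by
      calc ((pairs d e ⌊2 * e * Y⌋₊ b).card : ℝ) ≤
          ((2 * (⌊2 * e * Y ^ (1 + 1 / (d : ℝ)) / b⌋₊ * d ^ b.primeFactors.card) : ℕ) : ℝ) :=
            Nat.cast_le.2 h1
        _ = 2 * ((⌊2 * e * Y ^ (1 + 1 / (d : ℝ)) / b⌋₊ : ℝ) *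
            ((d ^ b.primeFactors.card : ℕ) : ℝ)) := by
              rw [Nat.cast_mul, Nat.cast_mul]
              norm_num
        _ ≤ _ := by
          apply mul_le_mul_of_nonneg_left _ (by norm_num)
          apply mul_le_mul (Nat.floor_le (by positivity)) (hω b hb1) (Nat.cast_nonneg _)
            (by positivity)
    refine h2.trans ?_
    have h3 : (b : ℝ) ^ ε ≤ Y ^ ε := rpow_le_rpow hb0.le hb hε.le
    have h4 : Y ^ (1 + 1 / (d : ℝ) + ε) = Y ^ (1 + 1 / (d : ℝ)) * Y ^ ε :=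
      rpow_add (by linarith) _ _
    calc 2 * ((2 * e * Y ^ (1 + 1 / (d : ℝ)) / b) * (C * (b : ℝ) ^ ε)) ≤
        2 * ((2 * e * Y ^ (1 + 1 / (d : ℝ)) / b) * (C * Y ^ ε)) := by gcongr
      _ = 4 * e * C * Y ^ (1 + 1 / (d : ℝ) + ε) * (1 / b) := by
          rw [h4]
          ring
      _ ≤ _ := by
          apply mul_le_mul_of_nonneg_right _ (by positivity)
          apply mul_le_mul_of_nonneg_right _ (by positivity)
          have : 0 ≤ ((5 * e * (25 * d * e ^ 2) ^ (d - 1) + 1 : ℕ) : ℝ) ^ 2 *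
            ((25 * d * e ^ 2 : ℕ) : ℝ) := by positivity
          linarith
  · have h1 : (pairs d e ⌊2 * e * Y⌋₊ b) ⊆
        Finset.range (5 * e * (25 * d * e ^ 2) ^ (d - 1) + 1) ×ˢ
        Finset.range (5 * e * (25 * d * e ^ 2) ^ (d - 1) + 1) := by
      intro x hx
      obtain ⟨-, h2, h3⟩ := Finset.mem_filter.1 hx
      obtain ⟨h4, h5⟩ := entry_le he hd4 hb1 h h2.ne h3
      rw [Finset.mem_product, Finset.mem_range, Finset.mem_range]
      exact ⟨Nat.lt_succ_of_le h4, Nat.lt_succ_of_le h5⟩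
    have h2 := Finset.card_le_card h1
    rw [Finset.card_product, Finset.card_range] at h2
    obtain ⟨A, hA⟩ : ∃ A : ℕ, A = 5 * e * (25 * d * e ^ 2) ^ (d - 1) + 1 := ⟨_, rfl⟩
    obtain ⟨B, hB⟩ : ∃ B : ℕ, B = 25 * d * e ^ 2 := ⟨_, rfl⟩
    rw [← hA] at h2 ⊢
    rw [← hB] at h ⊢
    have h3 : ((pairs d e ⌊2 * e * Y⌋₊ b).card : ℝ) ≤ (A : ℝ) ^ 2 := by
      rw [sq]
      exact_mod_cast h2
    have h4 : (1 : ℝ) ≤ B * (1 / b) := by
      rw [mul_one_div, le_div_iff₀ hb0, one_mul]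
      exact_mod_cast h
    calc ((pairs d e ⌊2 * e * Y⌋₊ b).card : ℝ) ≤ (A : ℝ) ^ 2 * 1 * 1 := by linarith
      _ ≤ (A : ℝ) ^ 2 * (B * (1 / b)) * Y ^ (1 + 1 / (d : ℝ) + ε) := by gcongr
      _ = ((A : ℝ) ^ 2 * B) * Y ^ (1 + 1 / (d : ℝ) + ε) * (1 / b) := by ring
      _ ≤ ((A : ℝ) ^ 2 * B + 4 * e * C) * Y ^ (1 + 1 / (d : ℝ) + ε) * (1 / b) := by
          apply mul_le_mul_of_nonneg_right _ (by positivity)
          apply mul_le_mul_of_nonneg_right _ (by positivity)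
          have : 0 ≤ 4 * e * C := by positivity
          linarith

/-- the number of the bad parameters -/
theorem bad_card (ε : ℝ) (hε : 0 < ε) : ∃ K : ℝ, 1 ≤ K ∧ ∀ X : ℝ, 1 ≤ X → (Bad d δ X).Finite ∧
    ((Bad d δ X).ncard : ℝ) ≤ K * (X ^ (1 / (d : ℝ))) ^ (1 + 1 / (d : ℝ) + ε) := by
  classical
  obtain ⟨C, hC, hω⟩ := omega_bound d (by omega) (ε / 4) (by positivity)
  obtain ⟨e, he⟩ : ∃ e, e = ee δ := ⟨_, rfl⟩
  have he1 : 1 ≤ e := by rw [he]; exact ee_pos δ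
  obtain ⟨L, hL⟩ : ∃ L : ℕ, L = 3 + 5 * (e * (25 * d * e ^ 2) ^ (d - 1)) := ⟨_, rfl⟩
  obtain ⟨K3, hK3⟩ : ∃ K3 : ℝ, K3 = ((5 * e * (25 * d * e ^ 2) ^ (d - 1) + 1 : ℕ) : ℝ) ^ 2 *
      ((25 * d * e ^ 2 : ℕ) : ℝ) + 4 * e * C := ⟨_, rfl⟩
  have hK30 : 0 ≤ K3 := by
    rw [hK3]
    positivity
  refine ⟨K3 * ((L * C) ^ 2 * 4) * (1 + 4 / ε) + 1, ?_, fun X hX => ?_⟩
  · have : 0 ≤ K3 * ((L * C) ^ 2 * 4) * (1 + 4 / ε) := by positivity
    linarith
  set Y := X ^ (1 / (d : ℝ)) with hY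
  have hY1 : 1 ≤ Y := one_le_rpow hX (by positivity)
  have hsub := bad_subset (δ := δ) hd hd4 hX
  rw [← hY, ← he] at hsub
  refine ⟨(Finset.finite_toSet _).subset hsub, ?_⟩
  have h1 : (Bad d δ X).ncard ≤ ∑ b ∈ Finset.Icc 1 ⌊Y⌋₊, (badc d δ e ⌊2 * e * Y⌋₊ b).card := by
    refine (Set.ncard_le_ncard hsub (Finset.finite_toSet _)).trans ?_
    rw [Set.ncard_coe_finset]
    exact Finset.card_biUnion_le
  have h2 : ∀ b ∈ Finset.Icc 1 ⌊Y⌋₊, ((badc d δ e ⌊2 * e * Y⌋₊ b).card : ℝ) ≤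
      K3 * ((L * C) ^ 2 * 4) * Y ^ (1 + 1 / (d : ℝ) + 3 / 4 * ε) * (1 / b) := by
    intro b hb
    obtain ⟨hb1, hb2⟩ := Finset.mem_Icc.1 hb
    have hbY : (b : ℝ) ≤ Y := (Nat.cast_le.2 hb2).trans (Nat.floor_le (by positivity))
    have h3 := badc_le (δ := δ) hd hd4 (M := ⌊2 * e * Y⌋₊) hb1
    rw [← he, ← hL] at h3
    have h4 := card_pairs_le hd hd4 he1 hX (ε := ε / 4) (by positivity) hC hω hb1 hbY
    rw [← hK3, ← hY] at h4
    have h5 : ((d ^ b.primeFactors.card : ℕ) : ℝ) ≤ C * Y ^ (ε / 4) := by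
      refine (hω b hb1).trans ?_
      gcongr
    calc ((badc d δ e ⌊2 * e * Y⌋₊ b).card : ℝ) ≤
        (((pairs d e ⌊2 * e * Y⌋₊ b).card * ((L * d ^ b.primeFactors.card) ^ 2 * 4) : ℕ) : ℝ) :=
          Nat.cast_le.2 h3
      _ = ((pairs d e ⌊2 * e * Y⌋₊ b).card : ℝ) *
          ((L * ((d ^ b.primeFactors.card : ℕ) : ℝ)) ^ 2 * 4) := by
          rw [Nat.cast_mul, Nat.cast_mul, Nat.cast_pow, Nat.cast_mul]
          norm_num
      _ ≤ (K3 * Y ^ (1 + 1 / (d : ℝ) + ε / 4) * (1 / b)) * ((L * (C * Y ^ (ε / 4))) ^ 2 * 4) := by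
          gcongr
      _ = K3 * ((L * C) ^ 2 * 4) * (Y ^ (1 + 1 / (d : ℝ) + ε / 4) * (Y ^ (ε / 4) * Y ^ (ε / 4))) *
          (1 / b) := by ring
      _ = _ := by
          rw [← rpow_add (by linarith), ← rpow_add (by linarith)]
          congr 3
          ring
  have h6 : 1 + log Y ≤ (1 + 4 / ε) * Y ^ (ε / 4) := by
    have h7 := log_le_rpow_div (x := Y) (by linarith) (ε := ε / 4) (by positivity)
    have h8 : 1 ≤ Y ^ (ε / 4) := one_le_rpow hY1 (by positivity)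
    have h9 : Y ^ (ε / 4) / (ε / 4) = 4 / ε * Y ^ (ε / 4) := by
      field_simp
    rw [h9] at h7
    linarith
  have h7 : ∑ b ∈ Finset.Icc 1 ⌊Y⌋₊, (1 : ℝ) / b ≤ (1 + 4 / ε) * Y ^ (ε / 4) := by
    refine (sum_inv _).trans (le_trans ?_ h6)
    have hB1 : 1 ≤ ⌊Y⌋₊ := Nat.le_floor (by simpa using hY1)
    have : log (⌊Y⌋₊ : ℝ) ≤ log Y := log_le_log (by exact_mod_cast hB1)
      (Nat.floor_le (by positivity))
    linarith
  have h8 : 0 ≤ Y ^ (1 + 1 / (d : ℝ) + ε) := by positivity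
  calc ((Bad d δ X).ncard : ℝ) ≤
      ((∑ b ∈ Finset.Icc 1 ⌊Y⌋₊, (badc d δ e ⌊2 * e * Y⌋₊ b).card : ℕ) : ℝ) := Nat.cast_le.2 h1
    _ = ∑ b ∈ Finset.Icc 1 ⌊Y⌋₊, ((badc d δ e ⌊2 * e * Y⌋₊ b).card : ℝ) := Nat.cast_sum _ _
    _ ≤ ∑ b ∈ Finset.Icc 1 ⌊Y⌋₊,
        K3 * ((L * C) ^ 2 * 4) * Y ^ (1 + 1 / (d : ℝ) + 3 / 4 * ε) * (1 / b) :=
        Finset.sum_le_sum h2
    _ = K3 * ((L * C) ^ 2 * 4) * Y ^ (1 + 1 / (d : ℝ) + 3 / 4 * ε) *
        ∑ b ∈ Finset.Icc 1 ⌊Y⌋₊, (1 : ℝ) / b := by rw [Finset.mul_sum]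
    _ ≤ K3 * ((L * C) ^ 2 * 4) * Y ^ (1 + 1 / (d : ℝ) + 3 / 4 * ε) *
        ((1 + 4 / ε) * Y ^ (ε / 4)) := by gcongr
    _ = K3 * ((L * C) ^ 2 * 4) * (1 + 4 / ε) *
        (Y ^ (1 + 1 / (d : ℝ) + 3 / 4 * ε) * Y ^ (ε / 4)) := by ring
    _ = K3 * ((L * C) ^ 2 * 4) * (1 + 4 / ε) * Y ^ (1 + 1 / (d : ℝ) + ε) := by
        rw [← rpow_add (by linarith)]
        congr 2
        ring
    _ ≤ _ := by
        apply mul_le_mul_of_nonneg_right _ h8
        linarith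

end

end Pool.Agent.Q15.HM
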