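import Pool.Agent.Q15.UM.U7
import Pool.Agent.Q15.HM.H6

/-! The number of the parameters with rational periodic points, and the moments. -/

set_option autoImplicit false
set_option linter.unusedSectionVars false

namespace Pool.Agent.Q15.HM

open Real
open Pool.Agent.Q15.UM (PairOK abs_eq_div eq_or_neg eq_sign_div omega_bound sum_inv cop cop_ge)

/-- the structure of the set of periodic points for most parameters -/
def Typ (d : ℕ) (δ : ℤ) (c : ℚ) : Prop :=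
  (∃ x : ℚ, Per d δ c = {(x, x)}) ∨ (|δ| = 1 ∧ ∃ x : ℚ, x ≠ 0 ∧ x ^ d + c = 0 ∧
      Per d δ c = {(x, x), (x, -x), (-x, x), (-x, -x)})

/-- the parameter of a typical member -/
def gpar (d : ℕ) (δ : ℤ) (t : (ℕ × ℕ) × Bool × Bool) : ℚ :=
  (if t.2.2 then (1 + (δ : ℚ)) else 0) *
    ((if t.2.1 then (1 : ℚ) else -1) * ((t.1.2 : ℚ) / t.1.1)) - ((t.1.2 : ℚ) / t.1.1) ^ d

section

variable {d : ℕ} {δ : ℤ} (hd : Even d) (hd4 : 4 ≤ d) (hδ : δ ≠ 0)
include hd hd4 hδ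

/-- parameters which are not typical are bad -/
lemma typ_or_bad {X : ℝ} {c : ℚ} (hc : c ∈ Par d δ X) : Typ d δ c ∨ c ∈ Bad d δ X := by
  by_cases h : ∀ x ∈ CP d δ c, ∀ y ∈ CP d δ c, |x| = |y|
  · exact Or.inl (structure_of hd hd4 hδ hc.2.2 h)
  · push Not at h
    exact Or.inr ⟨hc, h⟩

/-- typical parameters -/
lemma typ_par {c : ℚ} (h : Typ d δ c) :
    ∃ x ∈ Co d δ c, ∃ s : Bool, c = (if s then (1 + (δ : ℚ)) else 0) * x - x ^ d := by
  rcases h with ⟨x, hx⟩ | ⟨-, x, -, hx, hP⟩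
  · have h1 : (x, x) ∈ Per d δ c := by rw [hx]; rfl
    have h2 := per_step h1
    rw [hx, Set.mem_singleton_iff] at h2
    unfold hm at h2
    have h3 := (Prod.mk.inj h2).2
    simp only at h3
    refine ⟨x, (per_mem h1).1, true, ?_⟩
    rw [if_pos rfl]
    linear_combination h3
  · have h1 : (x, x) ∈ Per d δ c := by rw [hP]; simp
    refine ⟨x, (per_mem h1).1, false, ?_⟩
    simp only [Bool.false_eq_true, if_false, zero_mul]
    linear_combination hx

/-- the upper bound for the number of all parameters -/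
theorem par_upper : ∃ K : ℝ, 1 ≤ K ∧ ∀ X : ℝ, 1 ≤ X → (Par d δ X).Finite ∧
    ((Par d δ X).ncard : ℝ) ≤ K * (X ^ (1 / (d : ℝ))) ^ (2 : ℝ) := by
  classical
  obtain ⟨K, hK, hbad⟩ := bad_card (δ := δ) hd hd4 (1 / 2) (by norm_num)
  have hd0 : (4 : ℝ) ≤ d := by exact_mod_cast hd4
  have he : (1 : ℝ) ≤ ee δ := by exact_mod_cast ee_pos δ
  refine ⟨K + 12 * ee δ, by linarith, fun X hX => ?_⟩
  set Y := X ^ (1 / (d : ℝ)) with hY
  have hY1 : 1 ≤ Y := one_le_rpow hX (by positivity)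
  obtain ⟨hbf, hbc⟩ := hbad X hX
  rw [← hY] at hbc
  set G : Finset ℚ := ((Finset.Icc 1 ⌊Y⌋₊ ×ˢ Finset.range (⌊2 * ee δ * Y⌋₊ + 1)) ×ˢ
    (Finset.univ : Finset (Bool × Bool))).image (gpar d δ) with hG
  have hsub : Par d δ X ⊆ Bad d δ X ∪ (G : Set ℚ) := by
    intro c hc
    rcases typ_or_bad hd hd4 hδ hc with h | h
    · right
      obtain ⟨x, hx, s', hcx⟩ := typ_par hd hd4 hδ h
      obtain ⟨h1, h3, -⟩ := hc
      obtain ⟨x1, x2⟩ := num_le hd hd4 hX hx h1 h3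
      rw [Finset.mem_coe, hG, Finset.mem_image]
      obtain ⟨s, hs⟩ := eq_sign_div x
      refine ⟨((x.den, x.num.natAbs), (s, s')), ?_, ?_⟩
      · rw [Finset.mem_product, Finset.mem_product, Finset.mem_Icc, Finset.mem_range]
        exact ⟨⟨⟨x.den_pos, Nat.le_floor x2⟩, Nat.lt_succ_of_le (Nat.le_floor x1)⟩,
          Finset.mem_univ _⟩
      · have e1 := pow_eq_div hd hd4 x
        unfold gpar
        simp only
        rw [← e1, ← hs, ← hcx]
    · exact Or.inl h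
  have hGc : (G.card : ℝ) ≤ 12 * ee δ * Y ^ (2 : ℝ) := by
    have h1 := Finset.card_image_le (s := (Finset.Icc 1 ⌊Y⌋₊ ×ˢ
      Finset.range (⌊2 * ee δ * Y⌋₊ + 1)) ×ˢ
      (Finset.univ : Finset (Bool × Bool))) (f := gpar d δ)
    rw [Finset.card_product, Finset.card_product, Nat.card_Icc, Finset.card_range,
      Nat.add_sub_cancel] at h1
    have h2 : (Finset.univ : Finset (Bool × Bool)).card = 4 := by rfl
    rw [h2] at h1
    have h3 : (⌊Y⌋₊ : ℝ) ≤ Y := Nat.floor_le (by positivity)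
    have h4 : (⌊2 * ee δ * Y⌋₊ : ℝ) ≤ 2 * ee δ * Y := Nat.floor_le (by positivity)
    have h5 : Y ^ (2 : ℝ) = Y * Y := by
      rw [rpow_two, sq]
    rw [h5]
    calc (G.card : ℝ) ≤ ((⌊Y⌋₊ * (⌊2 * ee δ * Y⌋₊ + 1) * 4 : ℕ) : ℝ) := Nat.cast_le.2 h1
      _ = (⌊Y⌋₊ : ℝ) * ((⌊2 * ee δ * Y⌋₊ : ℝ) + 1) * 4 := by push_cast; ring
      _ ≤ Y * (2 * ee δ * Y + 1) * 4 := by gcongr
      _ ≤ Y * (2 * ee δ * Y + ee δ * Y) * 4 := by
          have : (1 : ℝ) ≤ ee δ * Y := by nlinarith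
          gcongr
      _ = 12 * ee δ * (Y * Y) := by ring
  have hfin : (Bad d δ X ∪ (G : Set ℚ)).Finite := hbf.union (Finset.finite_toSet _)
  refine ⟨hfin.subset hsub, ?_⟩
  have h1 : (Par d δ X).ncard ≤ (Bad d δ X).ncard + G.card := by
    refine (Set.ncard_le_ncard hsub hfin).trans ?_
    refine (Set.ncard_union_le _ _).trans ?_
    rw [Set.ncard_coe_finset]
  have h2 : Y ^ (1 + 1 / (d : ℝ) + 1 / 2) ≤ Y ^ (2 : ℝ) := by
    apply rpow_le_rpow_of_exponent_le hY1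
    have : 1 / (d : ℝ) ≤ 1 / 4 := one_div_le_one_div_of_le (by norm_num) hd0
    linarith
  calc ((Par d δ X).ncard : ℝ) ≤ ((Bad d δ X).ncard : ℝ) + G.card := by exact_mod_cast h1
    _ ≤ K * Y ^ (2 : ℝ) + 12 * ee δ * Y ^ (2 : ℝ) := by
        apply add_le_add (hbc.trans _) hGc
        apply mul_le_mul_of_nonneg_left h2 (by linarith)
    _ = (K + 12 * ee δ) * Y ^ (2 : ℝ) := by ring

omit hd hδ in
lemma inj_aux {m b u b' u' : ℕ} (hb : 1 ≤ b) (hb' : 1 ≤ b')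
    (hc : Nat.Coprime b u) (hc' : Nat.Coprime b' u')
    (h : -(m * ((u : ℚ) / b)) - ((u : ℚ) / b) ^ d = -(m * ((u' : ℚ) / b')) - ((u' : ℚ) / b') ^ d) :
    b = b' ∧ u = u' := by
  have hb0 : (0 : ℚ) < b := by exact_mod_cast hb
  have hb0' : (0 : ℚ) < b' := by exact_mod_cast hb'
  have h1 : (u : ℚ) / b = (u' : ℚ) / b' := by
    have h2 : StrictMonoOn (fun t : ℚ => m * t + t ^ d) (Set.Ici 0) := by
      intro s hs t ht hst
      have h3 : s ^ d < t ^ d := pow_lt_pow_left₀ hst hs (by omega)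
      have h4 : (m : ℚ) * s ≤ m * t := mul_le_mul_of_nonneg_left hst.le (Nat.cast_nonneg m)
      simp only
      linarith
    apply h2.injOn (Set.mem_Ici.2 (by positivity)) (Set.mem_Ici.2 (by positivity))
    simp only
    linarith
  rw [div_eq_div_iff hb0.ne' hb0'.ne'] at h1
  have h2 : u * b' = u' * b := by exact_mod_cast h1
  have h3 : b = b' := by
    apply Nat.dvd_antisymm
    · exact Nat.Coprime.dvd_of_dvd_mul_left hc (by rw [h2]; exact Dvd.intro_left _ rfl)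
    · exact Nat.Coprime.dvd_of_dvd_mul_left hc' (by rw [← h2]; exact Dvd.intro_left _ rfl)
  refine ⟨h3, ?_⟩
  rw [h3] at h2
  exact Nat.eq_of_mul_eq_mul_right (by omega) h2

omit hδ in
/-- the parameters of the family have a fixed point -/
lemma family_per {m : ℕ} (hm : m = (1 + δ).natAbs) (t : ℚ) :
    (Per d δ (-(m * t) - t ^ d)).Nonempty := by
  have key : ∀ x : ℚ, (1 + (δ : ℚ)) * x = -(m * t) → x ^ d = t ^ d →
      (x, x) ∈ Per d δ (-(m * t) - t ^ d) := by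
    intro x h1 h2
    refine ⟨1, one_pos, ?_⟩
    rw [Function.iterate_one]
    unfold Pool.Agent.Q15.HM.hm
    apply Prod.ext
    · rfl
    · simp only
      rw [h2]
      linear_combination -h1
  rcases le_total 0 (1 + δ) with h | h
  · refine ⟨(-t, -t), key _ ?_ (hd.neg_pow t)⟩
    have h1 : ((m : ℤ)) = 1 + δ := by
      rw [hm]
      exact Int.natAbs_of_nonneg h
    have h2 : (m : ℚ) = 1 + δ := by
      have : (((m : ℤ)) : ℚ) = ((1 + δ : ℤ) : ℚ) := by rw [h1]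
      push_cast at this
      exact this
    rw [h2]
    ring
  · refine ⟨(t, t), key _ ?_ rfl⟩
    have h1 : ((m : ℤ)) = -(1 + δ) := by
      rw [hm]
      exact Int.ofNat_natAbs_of_nonpos h
    have h2 : (m : ℚ) = -(1 + δ) := by
      have : (((m : ℤ)) : ℚ) = ((-(1 + δ) : ℤ) : ℚ) := by rw [h1]
      push_cast at this
      linarith
    rw [h2]
    ring

/-- the lower bound for the number of all parameters -/
theorem par_lower : ∃ K : ℝ, 1 ≤ K ∧ ∀ X : ℝ, 1 ≤ X →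
    (X ^ (1 / (d : ℝ))) ^ (2 : ℝ) ≤ K * ((Par d δ X).ncard : ℝ) := by
  classical
  obtain ⟨K, -, hK⟩ := par_upper hd hd4 hδ
  obtain ⟨m, hm⟩ : ∃ m, m = (1 + δ).natAbs := ⟨_, rfl⟩
  have hm0 : (0 : ℝ) ≤ m := Nat.cast_nonneg m
  refine ⟨16 * ((m : ℝ) + 1) ^ 2, by nlinarith, fun X hX => ?_⟩
  have hfin := (hK X hX).1
  have hd0 : (4 : ℝ) ≤ d := by exact_mod_cast hd4
  have hdn : d ≠ 0 := by omega
  set Y := X ^ (1 / (d : ℝ)) with hY
  have hY1 : 1 ≤ Y := one_le_rpow hX (by positivity)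
  rw [rpow_two]
  rcases lt_or_ge X ((m : ℝ) + 1) with hX2 | hX2
  · have h0 : (0 : ℚ) ∈ Par d δ X := by
      refine ⟨by simpa using (by linarith : (0 : ℝ) ≤ X), by simpa using hX, (0, 0), 1, one_pos,
        ?_⟩
      rw [Function.iterate_one]
      unfold Pool.Agent.Q15.HM.hm
      simp [zero_pow hdn]
    have h1 : 1 ≤ (Par d δ X).ncard := by
      rw [Nat.one_le_iff_ne_zero]
      exact (Set.ncard_pos hfin).2 ⟨0, h0⟩ |>.ne'
    have h2 : (1 : ℝ) ≤ (Par d δ X).ncard := by exact_mod_cast h1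
    have h3 : Y ≤ X := by
      calc Y ≤ X ^ (1 : ℝ) := rpow_le_rpow_of_exponent_le hX (by
            rw [div_le_one (by linarith)]
            linarith)
        _ = X := rpow_one X
    have h4 : Y ^ 2 ≤ ((m : ℝ) + 1) ^ 2 := by
      have : Y ≤ (m : ℝ) + 1 := by linarith
      gcongr
    have h5 : 0 ≤ ((m : ℝ) + 1) ^ 2 := by positivity
    nlinarith
  · set Z := (X / ((m : ℝ) + 1)) ^ (1 / (d : ℝ)) with hZ
    have hXm : 1 ≤ X / ((m : ℝ) + 1) := by
      rw [le_div_iff₀ (by linarith)]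
      linarith
    have hZ1 : 1 ≤ Z := one_le_rpow hXm (by positivity)
    have hZd : Z ^ d = X / ((m : ℝ) + 1) := by
      rw [hZ, ← rpow_natCast, ← rpow_mul (by linarith),
        one_div_mul_cancel (by linarith : (d : ℝ) ≠ 0), rpow_one]
    have hYZ : Y ≤ ((m : ℝ) + 1) * Z := by
      have h1 : Y = ((m : ℝ) + 1) ^ (1 / (d : ℝ)) * Z := by
        rw [hY, hZ, ← mul_rpow (by linarith) (by linarith)]
        congr 1
        field_simp
      have h2 : ((m : ℝ) + 1) ^ (1 / (d : ℝ)) ≤ (m : ℝ) + 1 := by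
        calc ((m : ℝ) + 1) ^ (1 / (d : ℝ)) ≤ ((m : ℝ) + 1) ^ (1 : ℝ) :=
              rpow_le_rpow_of_exponent_le (by linarith) (by
              rw [div_le_one (by linarith)]
              linarith)
          _ = (m : ℝ) + 1 := rpow_one _
      rw [h1]
      exact mul_le_mul_of_nonneg_right h2 (by linarith)
    obtain ⟨n, hn⟩ : ∃ n, n = ⌊Z⌋₊ := ⟨_, rfl⟩
    have hn1 : 1 ≤ n := by
      rw [hn]
      exact Nat.le_floor (by simpa using hZ1)
    have hnZ : (n : ℝ) ≤ Z := by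
      rw [hn]
      exact Nat.floor_le (by linarith)
    have hZn : Z ≤ 2 * n := by
      have h1 : Z < n + 1 := by
        rw [hn]
        exact Nat.lt_floor_add_one Z
      have h2 : (1 : ℝ) ≤ n := by exact_mod_cast hn1
      linarith
    have hnd : ((m : ℝ) + 1) * (n : ℝ) ^ d ≤ X := by
      have h1 : (n : ℝ) ^ d ≤ Z ^ d := by gcongr
      rw [hZd, le_div_iff₀ (by linarith)] at h1
      linarith
    -- the family of parameters
    have hinj : Set.InjOn (fun x : ℕ × ℕ => -(m * ((x.2 : ℚ) / x.1)) - ((x.2 : ℚ) / x.1) ^ d)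
        (cop n : Set (ℕ × ℕ)) := by
      intro x hx y hy hxy
      have hx' := Finset.mem_coe.1 hx
      have hy' := Finset.mem_coe.1 hy
      unfold cop at hx' hy'
      rw [Finset.mem_filter, Finset.mem_product, Finset.mem_Icc, Finset.mem_Icc] at hx' hy'
      obtain ⟨h1, h2⟩ := inj_aux hd4 hx'.1.1.1 hy'.1.1.1 hx'.2 hy'.2 hxy
      exact Prod.ext h1 h2
    have hsub : ((cop n).image fun x : ℕ × ℕ => -(m * ((x.2 : ℚ) / x.1)) -
        ((x.2 : ℚ) / x.1) ^ d : Set ℚ) ⊆ Par d δ X := by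
      intro c hc
      obtain ⟨x, hx, rfl⟩ := Finset.mem_image.1 (Finset.mem_coe.1 hc)
      unfold cop at hx
      rw [Finset.mem_filter, Finset.mem_product, Finset.mem_Icc, Finset.mem_Icc] at hx
      obtain ⟨⟨⟨a1, a2⟩, ⟨a3, a4⟩⟩, -⟩ := hx
      have hb0 : (0 : ℚ) < x.1 := by exact_mod_cast a1
      have hbz : ((x.1 : ℤ) ^ d) ≠ 0 := pow_ne_zero _ (by
        have : (0 : ℤ) < x.1 := by exact_mod_cast a1
        exact this.ne')
      have e : -(m * ((x.2 : ℚ) / x.1)) - ((x.2 : ℚ) / x.1) ^ d =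
          Rat.divInt (-(m * ((x.2 : ℤ) * (x.1 : ℤ) ^ (d - 1)) + (x.2 : ℤ) ^ d))
            ((x.1 : ℤ) ^ d) := by
        rw [Rat.divInt_eq_div]
        push_cast
        have h6 : (x.1 : ℚ) ^ d = (x.1 : ℚ) ^ (d - 1) * x.1 := by
          rw [← pow_succ]
          congr 1
          omega
        rw [div_pow, h6]
        field_simp
        ring
      have hx1 : (x.1 : ℝ) ≤ n := by exact_mod_cast a2
      have hx2 : (x.2 : ℝ) ≤ n := by exact_mod_cast a4
      refine ⟨?_, ?_, family_per hd hd4 hm _⟩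
      · rw [e]
        have h1 := Rat.num_dvd (-(m * ((x.2 : ℤ) * (x.1 : ℤ) ^ (d - 1)) + (x.2 : ℤ) ^ d)) hbz
        have hpos : 0 < m * ((x.2 : ℤ) * (x.1 : ℤ) ^ (d - 1)) + (x.2 : ℤ) ^ d := by
          have h2 : (0 : ℤ) < x.1 := by exact_mod_cast a1
          have h3 : (0 : ℤ) < x.2 := by exact_mod_cast a3
          have h4 : 0 ≤ m * ((x.2 : ℤ) * (x.1 : ℤ) ^ (d - 1)) := by positivity
          have h5 : 0 < (x.2 : ℤ) ^ d := by positivity
          linarith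
        have h2 := Int.le_of_dvd (by rw [abs_neg]; exact abs_pos.2 hpos.ne')
          ((abs_dvd_abs _ _).2 h1)
        rw [abs_neg, abs_of_pos hpos] at h2
        have h3 : ((|(Rat.divInt (-(m * ((x.2 : ℤ) * (x.1 : ℤ) ^ (d - 1)) + (x.2 : ℤ) ^ d))
            ((x.1 : ℤ) ^ d)).num| : ℤ) : ℝ) ≤
            m * ((x.2 : ℝ) * (x.1 : ℝ) ^ (d - 1)) + (x.2 : ℝ) ^ d := by
          exact_mod_cast h2
        refine h3.trans ?_
        have h4 : (n : ℝ) ^ d = n * (n : ℝ) ^ (d - 1) := by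
          rw [← pow_succ']
          congr 1
          omega
        calc m * ((x.2 : ℝ) * (x.1 : ℝ) ^ (d - 1)) + (x.2 : ℝ) ^ d ≤
            m * (n * (n : ℝ) ^ (d - 1)) + (n : ℝ) ^ d := by gcongr
          _ = ((m : ℝ) + 1) * (n : ℝ) ^ d := by rw [← h4]; ring
          _ ≤ X := hnd
      · rw [e]
        have h1 := Rat.den_dvd (-(m * ((x.2 : ℤ) * (x.1 : ℤ) ^ (d - 1)) + (x.2 : ℤ) ^ d))
          ((x.1 : ℤ) ^ d)
        have h2 := Int.le_of_dvd (by
          have : (0 : ℤ) < x.1 := by exact_mod_cast a1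
          positivity) h1
        have h3 : ((Rat.divInt (-(m * ((x.2 : ℤ) * (x.1 : ℤ) ^ (d - 1)) + (x.2 : ℤ) ^ d))
            ((x.1 : ℤ) ^ d)).den : ℝ) ≤ (x.1 : ℝ) ^ d := by
          exact_mod_cast h2
        refine h3.trans ?_
        have h4 : (x.1 : ℝ) ^ d ≤ (n : ℝ) ^ d := by gcongr
        have h5 : 0 ≤ (m : ℝ) * (n : ℝ) ^ d := by positivity
        linarith
    have h1 := Set.ncard_le_ncard hsub hfin
    rw [Set.ncard_coe_finset, Finset.card_image_of_injOn hinj] at h1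
    have h2 := cop_ge n hn1
    have h3 : ((cop n).card : ℝ) ≤ (Par d δ X).ncard := by exact_mod_cast h1
    have h4 : Y ≤ ((m : ℝ) + 1) * (2 * n) := by
      refine hYZ.trans ?_
      gcongr
    calc Y ^ 2 ≤ (((m : ℝ) + 1) * (2 * n)) ^ 2 := by gcongr
      _ = 4 * ((m : ℝ) + 1) ^ 2 * (n : ℝ) ^ 2 := by ring
      _ ≤ 4 * ((m : ℝ) + 1) ^ 2 * (4 * (Par d δ X).ncard) := by
          have : (n : ℝ) ^ 2 ≤ 4 * (Par d δ X).ncard := by linarith
          gcongr
      _ = _ := by ring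

/-- the moments over the bad parameters -/
theorem moments (p : ℕ) (ε : ℝ) (hε : 0 < ε) : ∃ K : ℝ, 1 ≤ K ∧ ∀ X : ℝ, 1 ≤ X →
    ∀ E : Set ℚ, E ⊆ Bad d δ X → ∑ᶠ c ∈ E, (((Per d δ c).ncard : ℝ)) ^ p ≤
      K * (X ^ (1 / (d : ℝ))) ^ (1 + 1 / (d : ℝ) + ε) := by
  classical
  obtain ⟨K, hK, hbad⟩ := bad_card (δ := δ) hd hd4 (ε / 2) (by positivity)
  obtain ⟨C, hC, hω⟩ := omega_bound d (by omega) (ε / (4 * (p + 1))) (by positivity)
  obtain ⟨L, hL⟩ : ∃ L : ℕ, L = K1 d (ee δ) := ⟨_, rfl⟩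
  have hL1 : (1 : ℝ) ≤ L := by
    have : 1 ≤ L := by rw [hL]; unfold K1; omega
    exact_mod_cast this
  refine ⟨K * ((L * C) ^ 2) ^ p, ?_, fun X hX E hE => ?_⟩
  · have h1 : 1 ≤ ((L : ℝ) * C) ^ 2 := one_le_pow₀ (by nlinarith)
    have : 1 ≤ (((L : ℝ) * C) ^ 2) ^ p := one_le_pow₀ h1
    nlinarith
  set Y := X ^ (1 / (d : ℝ)) with hY
  have hY1 : 1 ≤ Y := one_le_rpow hX (by positivity)
  obtain ⟨hbf, hbc⟩ := hbad X hX
  rw [← hY] at hbc
  have hEf : E.Finite := hbf.subset hE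
  rw [finsum_mem_eq_finite_toFinset_sum _ hEf]
  have h1 : ∀ c ∈ hEf.toFinset, ((Per d δ c).ncard : ℝ) ^ p ≤
      ((L * C) ^ 2) ^ p * Y ^ (ε / 2) := by
    intro c hc
    obtain ⟨⟨h1, h2, -⟩, x, hx, -⟩ := hE ((Set.Finite.mem_toFinset hEf).1 hc)
    have hx' := cp_co hx
    obtain ⟨-, x2⟩ := num_le hd hd4 hX hx' h1 h2
    have h3 : ((Per d δ c).ncard : ℝ) ≤ (L * C * Y ^ (ε / (4 * (p + 1)))) ^ 2 := by
      calc ((Per d δ c).ncard : ℝ) ≤ (((L * d ^ x.den.primeFactors.card) ^ 2 : ℕ) : ℝ) := by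
            rw [hL]
            exact Nat.cast_le.2 (ncard_per hd hd4 hx')
        _ = ((L : ℝ) * ((d ^ x.den.primeFactors.card : ℕ) : ℝ)) ^ 2 := by
            rw [Nat.cast_pow, Nat.cast_mul]
        _ ≤ (L * (C * (x.den : ℝ) ^ (ε / (4 * (p + 1))))) ^ 2 := by
            have := hω _ x.den_pos
            gcongr
        _ ≤ (L * (C * Y ^ (ε / (4 * (p + 1))))) ^ 2 := by
            gcongr
        _ = _ := by ring
    calc ((Per d δ c).ncard : ℝ) ^ p ≤ ((L * C * Y ^ (ε / (4 * (p + 1)))) ^ 2) ^ p := by gcongr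
      _ = ((L * C) ^ 2) ^ p * (Y ^ (ε / (4 * (p + 1)))) ^ (2 * p) := by
          rw [mul_pow, mul_pow, pow_mul]
      _ ≤ ((L * C) ^ 2) ^ p * Y ^ (ε / 2) := by
          apply mul_le_mul_of_nonneg_left _ (by positivity)
          rw [← rpow_natCast, ← rpow_mul (by linarith)]
          apply rpow_le_rpow_of_exponent_le hY1
          rw [div_mul_eq_mul_div, div_le_div_iff₀ (by positivity) (by norm_num)]
          push_cast
          nlinarith
  have hcard : (hEf.toFinset.card : ℝ) ≤ (Bad d δ X).ncard := by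
    rw [← Set.ncard_eq_toFinset_card _ hEf]
    exact_mod_cast Set.ncard_le_ncard hE hbf
  calc ∑ c ∈ hEf.toFinset, ((Per d δ c).ncard : ℝ) ^ p ≤
      ∑ _c ∈ hEf.toFinset, ((L * C) ^ 2) ^ p * Y ^ (ε / 2) := Finset.sum_le_sum h1
    _ = (hEf.toFinset.card : ℝ) * (((L * C) ^ 2) ^ p * Y ^ (ε / 2)) := by
        rw [Finset.sum_const, nsmul_eq_mul]
    _ ≤ (K * Y ^ (1 + 1 / (d : ℝ) + ε / 2)) * (((L * C) ^ 2) ^ p * Y ^ (ε / 2)) := by
        apply mul_le_mul_of_nonneg_right (hcard.trans hbc) (by positivity)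
    _ = K * ((L * C) ^ 2) ^ p * (Y ^ (1 + 1 / (d : ℝ) + ε / 2) * Y ^ (ε / 2)) := by ring
    _ = K * ((L * C) ^ 2) ^ p * Y ^ (1 + 1 / (d : ℝ) + ε) := by
        rw [← rpow_add (by linarith)]
        congr 2
        ring

end

end Pool.Agent.Q15.HM
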